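import Mathlib
import Pool.Agent.Q160.Worp

/-!
# Symmetric decomposition of the chromatic numerator polynomial (MP_9dade1_co)
-/

namespace Pool.Agent.Results.MP_9dade1_co.SymDecomp

open Polynomial

/-- `χ_G(n)`: the number of maps `V → {1, …, n}` which take different values at the ends of
every edge. -/
noncomputable def numCol {V : Type} (G : SimpleGraph V) (n : ℕ) : ℕ :=
  Nat.card {f : V → Fin n // ∀ u v, G.Adj u v → f u ≠ f v}

/-- `h = h_G`, i.e. `∑ χ_G(n) z^n = h(z) / (1 - z)^(d+1)`, where `d = |V|`. -/
def IsNumerator {V : Type} [Fintype V] (G : SimpleGraph V) (h : ℤ[X]) : Prop :=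
  (h : PowerSeries ℤ) = (1 - PowerSeries.X) ^ (Fintype.card V + 1) *
    PowerSeries.mk (fun n => (numCol G n : ℤ))

/-- `p` is `m`-symmetric. -/
def IsSym (m : ℕ) (p : ℤ[X]) : Prop := p.natDegree ≤ m ∧ ∀ i, i ≤ m → p.coeff i = p.coeff (m - i)

/-! ### Nonnegative numerators -/

/-- `c` has a nonnegative numerator of degree `≤ d`. -/
def NN (d : ℕ) (c : ℕ → ℕ) : Prop := ∃ h : ℤ[X], h.natDegree ≤ d ∧ (∀ i, 0 ≤ h.coeff i) ∧
  (h : PowerSeries ℤ) = (1 - PowerSeries.X) ^ (d + 1) * PowerSeries.mk (fun n => (c n : ℤ))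

lemma NN.zero (d : ℕ) : NN d (fun _ => 0) :=
  ⟨0, by simp, fun i => by simp, by
    have : PowerSeries.mk (fun n : ℕ => (((fun _ => 0 : ℕ → ℕ) n : ℕ) : ℤ)) = 0 := by
      ext n; simp
    rw [this, mul_zero]
    exact Polynomial.coe_zero⟩

lemma NN.congr {d : ℕ} {c c' : ℕ → ℕ} (h : NN d c) (hc : ∀ n, c' n = c n) : NN d c' := by
  have : c' = c := funext hc
  rw [this]; exact h

lemma NN.add {d : ℕ} {c c' : ℕ → ℕ} (h : NN d c) (h' : NN d c') : NN d (fun n => c n + c' n) := by
  obtain ⟨p, hp1, hp2, hp3⟩ := h
  obtain ⟨q, hq1, hq2, hq3⟩ := h'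
  refine ⟨p + q, (Polynomial.natDegree_add_le p q).trans (max_le hp1 hq1), fun i => ?_, ?_⟩
  · rw [Polynomial.coeff_add]; exact add_nonneg (hp2 i) (hq2 i)
  · have h1 : PowerSeries.mk (fun n => ((c n + c' n : ℕ) : ℤ))
        = PowerSeries.mk (fun n => (c n : ℤ)) + PowerSeries.mk (fun n => (c' n : ℤ)) := by
      ext n
      rw [map_add, PowerSeries.coeff_mk, PowerSeries.coeff_mk, PowerSeries.coeff_mk]
      push_cast
      ring
    rw [Polynomial.coe_add, hp3, hq3, h1]
    ring

lemma NN.sum {ι : Type} {d : ℕ} (s : Finset ι) {c : ι → ℕ → ℕ} (h : ∀ i ∈ s, NN d (c i)) :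
    NN d (fun n => ∑ i ∈ s, c i n) := by
  classical
  induction s using Finset.induction_on with
  | empty => simpa using NN.zero d
  | insert a s ha ih =>
    have h1 := ih (fun i hi => h i (Finset.mem_insert_of_mem hi))
    have h2 := h a (Finset.mem_insert_self a s)
    exact (h2.add h1).congr (fun n => by rw [Finset.sum_insert ha])

/-! ### Strict constraints -/

lemma card_split {α : Type} [Finite α] (P Q : α → Prop) :
    Nat.card {f : α // P f} = Nat.card {f : α // P f ∧ Q f} + Nat.card {f : α // P f ∧ ¬ Q f} := by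
  classical
  have := Fintype.ofFinite α
  rw [Nat.card_eq_fintype_card, Nat.card_eq_fintype_card, Nat.card_eq_fintype_card,
    Fintype.card_subtype, Fintype.card_subtype, Fintype.card_subtype,
    ← Finset.filter_filter, ← Finset.filter_filter, Finset.card_filter_add_card_filter_not]

lemma card_fiber {α β : Type} [Finite α] [Fintype β] (P : α → Prop) (g : α → β) :
    Nat.card {f : α // P f} = ∑ b, Nat.card {f : α // P f ∧ g f = b} := by
  classical
  have := Fintype.ofFinite α
  have h1 : ∀ b, Nat.card {f : α // P f ∧ g f = b}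
      = ((Finset.univ.filter P).filter (fun f => g f = b)).card := by
    intro b
    rw [Nat.card_eq_fintype_card, Fintype.card_subtype, Finset.filter_filter]
  simp_rw [h1]
  rw [Nat.card_eq_fintype_card, Fintype.card_subtype]
  exact Finset.card_eq_sum_card_fiberwise (fun _ _ => Finset.mem_coe.mpr (Finset.mem_univ _))

variable {V : Type} [Fintype V]

lemma strict_NN {m : ℕ} (hV : Fintype.card V = m + 1) (S : List (V × V)) :
    NN (m + 1) (fun n => Nat.card {f : V → Fin n // ∀ p ∈ S, f p.1 < f p.2}) := by
  classical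
  by_cases hall : ∀ n, Nat.card {f : V → Fin n // ∀ p ∈ S, f p.1 < f p.2} = 0
  · exact (NN.zero (m + 1)).congr hall
  push Not at hall
  obtain ⟨n0, hn0⟩ := hall
  have hne : Nonempty {f : V → Fin n0 // ∀ p ∈ S, f p.1 < f p.2} := by
    by_contra hcon
    rw [not_nonempty_iff] at hcon
    exact hn0 (Nat.card_of_isEmpty)
  obtain ⟨f0, hf0⟩ := hne
  let e0 : Fin (m + 1) ≃ V := (Fintype.equivFinOfCardEq hV).symm
  let σ := Tuple.sort (fun i => OrderDual.toDual (f0 (e0 i)))
  let e : Fin (m + 1) ≃ V := σ.trans e0
  have hmono : ∀ i j : Fin (m + 1), i ≤ j → f0 (e j) ≤ f0 (e i) := by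
    intro i j hij
    exact Tuple.monotone_sort (fun i => OrderDual.toDual (f0 (e0 i))) hij
  have hS : ∀ p ∈ S, e.symm p.2 < e.symm p.1 := by
    intro p hp
    by_contra hcon
    push Not at hcon
    have h1 := hmono _ _ hcon
    simp only [Equiv.apply_symm_apply] at h1
    exact absurd (hf0 p hp) (not_lt.mpr h1)
  have hcount : ∀ n, Nat.card {f : V → Fin n // ∀ p ∈ S, f p.1 < f p.2}
      = ∑ w : Equiv.Perm (Fin (m + 1)),
        if (∀ p ∈ S, w.symm (e.symm p.1) < w.symm (e.symm p.2)) then
          (n + Q160.Worp.asc w).choose (m + 1) else 0 := by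
    intro n
    have h1 : Nat.card {f : V → Fin n // ∀ p ∈ S, f p.1 < f p.2}
        = Nat.card {g : Fin (m + 1) → Fin n // ∀ p ∈ S, g (e.symm p.1) < g (e.symm p.2)} := by
      apply Nat.card_congr
      refine ⟨fun f => ⟨fun i => f.1 (e i), ?_⟩, fun g => ⟨fun v => g.1 (e.symm v), g.2⟩, ?_, ?_⟩
      · intro p hp
        simp only [Equiv.apply_symm_apply]
        exact f.2 p hp
      · intro f
        apply Subtype.ext
        funext v
        simp
      · intro g
        apply Subtype.ext
        funext i
        simp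
    rw [h1, card_fiber _ (fun g => Tuple.sort g)]
    apply Finset.sum_congr rfl
    intro w _
    by_cases hw : ∀ p ∈ S, w.symm (e.symm p.1) < w.symm (e.symm p.2)
    · rw [if_pos hw, ← Q160.Worp.card_sort]
      apply Nat.card_congr
      apply Equiv.subtypeEquivRight
      intro g
      constructor
      · exact fun h => h.2
      · intro h
        refine ⟨?_, h⟩
        intro p hp
        rw [eq_comm, Tuple.eq_sort_iff] at h
        have h2 := hw p hp
        have h3 : g (w (w.symm (e.symm p.1))) ≤ g (w (w.symm (e.symm p.2))) := h.1 h2.le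
        simp only [Equiv.apply_symm_apply] at h3
        rcases h3.lt_or_eq with h4 | h4
        · exact h4
        · exfalso
          have h5 := h.2 _ _ h2 (by simpa using h4)
          simp only [Equiv.apply_symm_apply] at h5
          exact absurd (hS p hp) (not_lt.mpr h5.le)
    · rw [if_neg hw]
      have : IsEmpty {f : Fin (m + 1) → Fin n //
          (∀ p ∈ S, f (e.symm p.1) < f (e.symm p.2)) ∧ Tuple.sort f = w} := by
        refine ⟨?_⟩
        rintro ⟨g, hg1, hg2⟩
        apply hw
        intro p hp
        rw [eq_comm, Tuple.eq_sort_iff] at hg2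
        by_contra hcon
        push Not at hcon
        have h3 : g (w (w.symm (e.symm p.2))) ≤ g (w (w.symm (e.symm p.1))) := hg2.1 hcon
        simp only [Equiv.apply_symm_apply] at h3
        exact absurd (hg1 p hp) (not_lt.mpr h3)
      exact Nat.card_of_isEmpty
  refine NN.congr (NN.sum Finset.univ (c := fun w n =>
    if (∀ p ∈ S, w.symm (e.symm p.1) < w.symm (e.symm p.2)) then
          (n + Q160.Worp.asc w).choose (m + 1) else 0) ?_) hcount
  intro w _
  by_cases hw : ∀ p ∈ S, w.symm (e.symm p.1) < w.symm (e.symm p.2)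
  · simp only [if_pos hw]
    have hasc := Q160.Worp.asc_le w
    refine ⟨X ^ (m + 1 - Q160.Worp.asc w), ?_, ?_, ?_⟩
    · rw [Polynomial.natDegree_X_pow]; omega
    · intro i
      rw [Polynomial.coeff_X_pow]
      split_ifs <;> simp
    · rw [Q160.Worp.gen _ hasc]
      simp
  · simp only [if_neg hw]
    exact NN.zero _

lemma mixed_NN {m : ℕ} (hV : Fintype.card V = m + 1) (E : List (V × V)) : ∀ S : List (V × V),
    NN (m + 1) (fun n => Nat.card {f : V → Fin n // (∀ p ∈ E, f p.1 ≠ f p.2) ∧
      ∀ p ∈ S, f p.1 < f p.2}) := by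
  induction E with
  | nil =>
    intro S
    refine (strict_NN hV S).congr (fun n => ?_)
    apply Nat.card_congr
    apply Equiv.subtypeEquivRight
    intro f
    simp
  | cons q E ih =>
    intro S
    have h1 := ih (q :: S)
    have h2 := ih ((q.2, q.1) :: S)
    refine (h1.add h2).congr (fun n => ?_)
    rw [card_split _ (fun f => f q.1 < f q.2)]
    congr 1
    · apply Nat.card_congr
      apply Equiv.subtypeEquivRight
      intro f
      simp only [List.mem_cons, forall_eq_or_imp]
      constructor
      · rintro ⟨⟨⟨_, h3⟩, h4⟩, h5⟩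
        exact ⟨h3, h5, h4⟩
      · rintro ⟨h3, h5, h4⟩
        exact ⟨⟨⟨h5.ne, h3⟩, h4⟩, h5⟩
    · apply Nat.card_congr
      apply Equiv.subtypeEquivRight
      intro f
      simp only [List.mem_cons, forall_eq_or_imp]
      constructor
      · rintro ⟨⟨⟨h2, h3⟩, h4⟩, h5⟩
        exact ⟨h3, lt_of_le_of_ne (not_lt.mp h5) (Ne.symm h2), h4⟩
      · rintro ⟨h3, h5, h4⟩
        exact ⟨⟨⟨h5.ne', h3⟩, h4⟩, not_lt.mpr h5.le⟩

/-- number of maps satisfying the constraints `f p.1 ≠ f p.2`. -/
noncomputable def cnt (E : List (V × V)) (n : ℕ) : ℕ :=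
  Nat.card {f : V → Fin n // ∀ p ∈ E, f p.1 ≠ f p.2}

lemma cnt_NN {m : ℕ} (hV : Fintype.card V = m + 1) (E : List (V × V)) : NN (m + 1) (cnt E) := by
  refine (mixed_NN hV E []).congr (fun n => ?_)
  apply Nat.card_congr
  apply Equiv.subtypeEquivRight
  intro f
  simp

/-! ### Deletion–contraction -/

open Classical in
/-- the contraction map identifying `v` with `u` -/
noncomputable def contr (u v : V) (huv : u ≠ v) (x : V) : {x : V // x ≠ v} :=
  if h : x = v then ⟨u, huv⟩ else ⟨x, h⟩

omit [Fintype V] in
lemma contr_of_ne {u v : V} (huv : u ≠ v) {x : V} (h : x ≠ v) : contr u v huv x = ⟨x, h⟩ := by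
  unfold contr; rw [dif_neg h]

omit [Fintype V] in
lemma contr_self {u v : V} (huv : u ≠ v) : contr u v huv v = ⟨u, huv⟩ := by
  unfold contr; rw [dif_pos rfl]

open Classical in
lemma del_contr (E : List (V × V)) (q : V × V) (hq : q.1 ≠ q.2) (n : ℕ) :
    cnt E n = cnt (q :: E) n +
      cnt (E.map (fun p => (contr q.1 q.2 hq p.1, contr q.1 q.2 hq p.2))) n := by
  unfold cnt
  rw [card_split _ (fun f => f q.1 ≠ f q.2)]
  congr 1
  · apply Nat.card_congr
    apply Equiv.subtypeEquivRight
    intro f
    simp only [List.mem_cons, forall_eq_or_imp]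
    exact and_comm
  · apply Nat.card_congr
    have key : ∀ f : V → Fin n, f q.1 = f q.2 → ∀ x, f (contr q.1 q.2 hq x).1 = f x := by
      intro f hf x
      by_cases hx : x = q.2
      · rw [hx, contr_self]; exact hf
      · rw [contr_of_ne hq hx]
    refine ⟨fun f => ⟨fun x => f.1 x.1, ?_⟩, fun g => ⟨fun x => g.1 (contr q.1 q.2 hq x), ?_, ?_⟩,
      ?_, ?_⟩
    · intro p hp
      obtain ⟨p', hp', rfl⟩ := List.mem_map.mp hp
      have h1 := f.2.2
      simp only [ne_eq, not_not] at h1
      simp only
      rw [key f.1 h1, key f.1 h1]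
      exact f.2.1 p' hp'
    · intro p hp
      exact g.2 _ (List.mem_map.mpr ⟨p, hp, rfl⟩)
    · simp only [ne_eq, not_not]
      rw [contr_self, contr_of_ne hq hq]
    · intro f
      apply Subtype.ext
      funext x
      have h1 := f.2.2
      simp only [ne_eq, not_not] at h1
      exact key f.1 h1 x
    · intro g
      apply Subtype.ext
      funext x
      simp only
      rw [contr_of_ne hq x.2]

/-! ### The decomposition -/

/-- the statement to be proved for the sequence `c`. -/
def MM (d : ℕ) (c : ℕ → ℕ) : Prop := ∃ h a : ℤ[X], h.natDegree ≤ d ∧ (∀ i, 0 ≤ h.coeff i) ∧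
  (h : PowerSeries ℤ) = (1 - PowerSeries.X) ^ (d + 1) * PowerSeries.mk (fun n => (c n : ℤ)) ∧
  (1 - X) * a = h - X * reflect d h ∧ a.natDegree ≤ d ∧ ∀ i, a.coeff i ≤ 0

lemma natDegree_reflect_le {d : ℕ} {p : ℤ[X]} (h : p.natDegree ≤ d) :
    (reflect d p).natDegree ≤ d := by
  rw [Polynomial.natDegree_le_iff_coeff_eq_zero]
  intro N hN
  rw [Polynomial.coeff_reflect, Polynomial.revAt_eq_self_of_lt hN]
  exact Polynomial.coeff_eq_zero_of_natDegree_lt (by omega)

lemma coeff_reflect_nonneg {d : ℕ} {p : ℤ[X]} (h : ∀ i, 0 ≤ p.coeff i) (i : ℕ) :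
    0 ≤ (reflect d p).coeff i := by
  rw [Polynomial.coeff_reflect]; exact h _

lemma coeff_X_mul_nonneg {p : ℤ[X]} (h : ∀ i, 0 ≤ p.coeff i) (i : ℕ) :
    0 ≤ (X * p).coeff i := by
  cases i with
  | zero => simp
  | succ i => rw [Polynomial.coeff_X_mul]; exact h i

lemma reflect_one_sub_mul {d : ℕ} {p : ℤ[X]} (h : p.natDegree ≤ d) :
    reflect (d + 1) ((1 - X) * p) = (X - 1) * reflect d p := by
  have h1 : (1 - X : ℤ[X]).natDegree ≤ 1 := by
    have : (1 - X : ℤ[X]) = 1 - X := rfl
    refine (Polynomial.natDegree_sub_le _ _).trans ?_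
    simp
  rw [add_comm, Polynomial.reflect_mul _ _ h1 h, Polynomial.reflect_sub, Polynomial.reflect_one]
  simp

lemma reflect_succ {d : ℕ} {p : ℤ[X]} (h : p.natDegree ≤ d) :
    reflect (d + 1) p = X * reflect d p := by
  have h1 := Polynomial.reflect_mul (1 : ℤ[X]) p (F := 1) (G := d) (by simp) h
  rw [one_mul, Polynomial.reflect_one, pow_one, add_comm] at h1
  exact h1

lemma reflect_succ_X_mul {d : ℕ} {p : ℤ[X]} (h : p.natDegree ≤ d) :
    reflect (d + 1) (X * p) = reflect d p := by
  have h1 := Polynomial.reflect_mul (X : ℤ[X]) p (F := 1) (G := d) (by simp) h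
  rw [Polynomial.reflect_one_X, one_mul, add_comm] at h1
  exact h1

/-- The edgeless case. -/
lemma base {m : ℕ} (hV : Fintype.card V = m + 1) : MM (m + 1) (cnt ([] : List (V × V))) := by
  classical
  let h : ℤ[X] := ∑ w : Equiv.Perm (Fin (m + 1)), X ^ (m + 1 - Q160.Worp.asc w)
  have hdeg : h.natDegree ≤ m + 1 := by
    apply Polynomial.natDegree_sum_le_of_forall_le
    intro w _
    rw [Polynomial.natDegree_X_pow]; omega
  have hcoeff : ∀ i, 0 ≤ h.coeff i := by
    intro i
    rw [Polynomial.finsetSum_coeff]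
    apply Finset.sum_nonneg
    intro w _
    rw [Polynomial.coeff_X_pow]
    split_ifs <;> simp
  have hps : (h : PowerSeries ℤ) = (1 - PowerSeries.X) ^ (m + 1 + 1) *
      PowerSeries.mk (fun n => (cnt ([] : List (V × V)) n : ℤ)) := by
    have hcnt : ∀ n, cnt ([] : List (V × V)) n
        = ∑ w : Equiv.Perm (Fin (m + 1)), (n + Q160.Worp.asc w).choose (m + 1) := by
      intro n
      unfold cnt
      have h1 : Nat.card {f : V → Fin n // ∀ p ∈ ([] : List (V × V)), f p.1 ≠ f p.2}
          = Nat.card {g : Fin (m + 1) → Fin n // True} := by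
        apply Nat.card_congr
        let e : Fin (m + 1) ≃ V := (Fintype.equivFinOfCardEq hV).symm
        refine ⟨fun f => ⟨fun i => f.1 (e i), trivial⟩, fun g => ⟨fun v => g.1 (e.symm v), ?_⟩,
          ?_, ?_⟩
        · intro p hp; simp at hp
        · intro f; apply Subtype.ext; funext v; simp
        · intro g; apply Subtype.ext; funext v; simp
      rw [h1, card_fiber _ (fun g => Tuple.sort g)]
      apply Finset.sum_congr rfl
      intro w _
      rw [← Q160.Worp.card_sort]
      apply Nat.card_congr
      apply Equiv.subtypeEquivRight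
      intro g
      simp
    have h2 : PowerSeries.mk (fun n => (cnt ([] : List (V × V)) n : ℤ))
        = ∑ w : Equiv.Perm (Fin (m + 1)),
          PowerSeries.mk (fun n => (((n + Q160.Worp.asc w).choose (m + 1) : ℕ) : ℤ)) := by
      ext n
      rw [PowerSeries.coeff_mk, hcnt, map_sum]
      simp
    rw [h2, Finset.mul_sum]
    have h3 : (h : PowerSeries ℤ) = ∑ w : Equiv.Perm (Fin (m + 1)),
        (PowerSeries.X : PowerSeries ℤ) ^ (m + 1 - Q160.Worp.asc w) := by
      have h4 : (h : PowerSeries ℤ) = Polynomial.coeToPowerSeries.ringHom h := rfl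
      rw [h4]
      show Polynomial.coeToPowerSeries.ringHom (∑ w : Equiv.Perm (Fin (m + 1)),
        X ^ (m + 1 - Q160.Worp.asc w)) = _
      rw [map_sum]
      apply Finset.sum_congr rfl
      intro w _
      simp
    rw [h3]
    apply Finset.sum_congr rfl
    intro w _
    exact (Q160.Worp.gen _ (Q160.Worp.asc_le w)).symm
  refine ⟨h, 0, hdeg, hcoeff, hps, ?_, by simp, fun i => by simp⟩
  -- symmetry of the Eulerian polynomial
  have h1 : X * reflect (m + 1) h = h := by
    have h2 : reflect (m + 1) h
        = ∑ w : Equiv.Perm (Fin (m + 1)), X ^ (Q160.Worp.asc w) := by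
      have h3 : ∀ s : Finset (Equiv.Perm (Fin (m + 1))),
          reflect (m + 1) (∑ w ∈ s, (X : ℤ[X]) ^ (m + 1 - Q160.Worp.asc w))
          = ∑ w ∈ s, X ^ (Q160.Worp.asc w) := by
        intro s
        induction s using Finset.induction_on with
        | empty => simp
        | insert w s hw ih =>
          rw [Finset.sum_insert hw, Finset.sum_insert hw, Polynomial.reflect_add, ih,
            Polynomial.reflect_monomial, Polynomial.revAt_le (by omega)]
          have := Q160.Worp.asc_le w
          congr 2
          omega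
      exact h3 Finset.univ
    rw [h2, Finset.mul_sum]
    show _ = ∑ w : Equiv.Perm (Fin (m + 1)), X ^ (m + 1 - Q160.Worp.asc w)
    let τ : Equiv.Perm (Fin (m + 1)) ≃ Equiv.Perm (Fin (m + 1)) :=
      ⟨fun w => w.trans Fin.revPerm, fun w => w.trans Fin.revPerm, fun w => by
        ext i; simp, fun w => by ext i; simp⟩
    rw [← Equiv.sum_comp τ (fun w => (X : ℤ[X]) ^ (m + 1 - Q160.Worp.asc w))]
    apply Finset.sum_congr rfl
    intro w _
    have h4 := Q160.Worp.asc_rev w
    show X * X ^ Q160.Worp.asc w = X ^ (m + 1 - Q160.Worp.asc (w.trans Fin.revPerm))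
    rw [← pow_succ']
    congr 1
    omega
  rw [h1]
  simp

/-- The main induction. -/
lemma main (k : ℕ) : ∀ (V : Type) [Fintype V] (m : ℕ) (_ : Fintype.card V = m + 1)
    (E : List (V × V)), E.length = k → MM (m + 1) (cnt E) := by
  classical
  induction k with
  | zero =>
    intro V _ m hV E hE
    rw [List.length_eq_zero_iff] at hE
    rw [hE]
    exact base hV
  | succ k ih =>
    intro V _ m hV E hE
    match E, hE with
    | q :: E, hE =>
      by_cases hq : q.1 = q.2
      · -- a loop
        have h0 : ∀ n, cnt (q :: E) n = 0 := by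
          intro n
          unfold cnt
          have : IsEmpty {f : V → Fin n // ∀ p ∈ q :: E, f p.1 ≠ f p.2} := by
            refine ⟨?_⟩
            rintro ⟨f, hf⟩
            exact hf q (by simp) (by rw [hq])
          exact Nat.card_of_isEmpty
        refine ⟨0, 0, by simp, fun i => by simp, ?_, by simp, by simp, fun i => by simp⟩
        have : PowerSeries.mk (fun n => (cnt (q :: E) n : ℤ)) = 0 := by
          ext n
          simp [h0]
        rw [this]; simp
      · have hlen : E.length = k := by simpa using hE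
        -- the contraction has `m` vertices, and `m ≥ 1`
        have hcard : Fintype.card {x : V // x ≠ q.2} = m := by
          have := Fintype.card_subtype_compl (fun x : V => x = q.2)
          rw [Fintype.card_subtype_eq, hV] at this
          simpa using this
        have hm : 1 ≤ m := by
          rw [← hcard]
          exact Fintype.card_pos_iff.mpr ⟨⟨q.1, hq⟩⟩
        obtain ⟨m', rfl⟩ : ∃ m', m = m' + 1 := ⟨m - 1, by omega⟩
        obtain ⟨h', a', hd', hn', hp', he', hda', hna'⟩ := ih V (m' + 1) hV E hlen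
        obtain ⟨h2, a2, hd2, hn2, hp2, he2, hda2, hna2⟩ := ih {x : V // x ≠ q.2} m' hcard
          (E.map (fun p => (contr q.1 q.2 hq p.1, contr q.1 q.2 hq p.2))) (by simpa using hlen)
        obtain ⟨h, hd, hn, hp⟩ := cnt_NN hV (q :: E)
        have hh : h = h' - (1 - X) * h2 := by
          apply Polynomial.coe_injective
          have h1 : (((h' - (1 - X) * h2 : ℤ[X])) : PowerSeries ℤ)
              = (h' : PowerSeries ℤ) - (1 - PowerSeries.X) * (h2 : PowerSeries ℤ) := by
            simp
          rw [h1, hp, hp', hp2]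
          have h3 : PowerSeries.mk (fun n => (cnt E n : ℤ))
              = PowerSeries.mk (fun n => (cnt (q :: E) n : ℤ)) + PowerSeries.mk (fun n =>
                (cnt (E.map (fun p => (contr q.1 q.2 hq p.1, contr q.1 q.2 hq p.2))) n : ℤ)) := by
            ext n
            rw [map_add, PowerSeries.coeff_mk, PowerSeries.coeff_mk, PowerSeries.coeff_mk,
              del_contr E q hq n]
            push_cast
            ring
          rw [h3]
          ring
        refine ⟨h, a' - h2 - X * reflect (m' + 1) h2, hd, hn, hp, ?_, ?_, ?_⟩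
        · rw [hh, Polynomial.reflect_sub, reflect_one_sub_mul hd2]
          have : (1 - X) * (a' - h2 - X * reflect (m' + 1) h2)
              = (1 - X) * a' - (1 - X) * h2 - (1 - X) * X * reflect (m' + 1) h2 := by ring
          rw [this, he']
          ring
        · have h1 : (X * reflect (m' + 1) h2).natDegree ≤ m' + 1 + 1 := by
            refine Polynomial.natDegree_mul_le.trans ?_
            have := natDegree_reflect_le hd2
            rw [Polynomial.natDegree_X]
            omega
          refine (Polynomial.natDegree_sub_le _ _).trans (max_le ?_ h1)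
          refine (Polynomial.natDegree_sub_le _ _).trans (max_le hda' (by omega))
        · intro i
          rw [Polynomial.coeff_sub, Polynomial.coeff_sub]
          have h1 := hna' i
          have h3 := hn2 i
          have h4 := coeff_X_mul_nonneg (coeff_reflect_nonneg (d := m' + 1) hn2) i
          linarith

/-- If `h = a + X b` with the symmetries, then `(1 - X) a = h - X h^rev`. -/
lemma decomp_eq {d : ℕ} (hd : 1 ≤ d) {h a b : ℤ[X]} (ha : IsSym d a) (hb : IsSym (d - 1) b)
    (hab : h = a + X * b) : (1 - X) * a = h - X * reflect d h := by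
  obtain ⟨d, rfl⟩ : ∃ d', d = d' + 1 := ⟨d - 1, by omega⟩
  simp only [Nat.add_sub_cancel] at hb
  have hsym : ∀ {m : ℕ} {p : ℤ[X]}, IsSym m p → reflect m p = p := by
    intro m p hp
    ext i
    rw [Polynomial.coeff_reflect]
    by_cases hi : i ≤ m
    · rw [Polynomial.revAt_le hi]; exact (hp.2 i hi).symm
    · rw [Polynomial.revAt_eq_self_of_lt (by omega)]
  rw [hab, Polynomial.reflect_add, hsym ha, reflect_succ_X_mul hb.1, hsym hb]
  ring

/-- Conversely. -/
lemma decomp_of_eq {d : ℕ} (hd : 1 ≤ d) {h a : ℤ[X]} (hh : h.natDegree ≤ d)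
    (ha : a.natDegree ≤ d) (he : (1 - X) * a = h - X * reflect d h) :
    IsSym d a ∧ IsSym (d - 1) (reflect d h - a) ∧ h = a + X * (reflect d h - a) := by
  have h1 : h = a + X * (reflect d h - a) := by
    have : h = (1 - X) * a + X * reflect d h := by rw [he]; ring
    calc h = (1 - X) * a + X * reflect d h := this
      _ = a + X * (reflect d h - a) := by ring
  have h2 : reflect d a = a := by
    have h3 := congrArg (reflect (d + 1)) he
    rw [reflect_one_sub_mul ha, Polynomial.reflect_sub, reflect_succ hh,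
      reflect_succ_X_mul (natDegree_reflect_le hh), Polynomial.reflect_reflect] at h3
    have h4 : (1 - X) * reflect d a = (1 - X) * a := by
      rw [he]
      calc (1 - X) * reflect d a = -((X - 1) * reflect d a) := by ring
        _ = -(X * reflect d h - h) := by rw [h3]
        _ = h - X * reflect d h := by ring
    have h5 : (1 - X : ℤ[X]) ≠ 0 := by
      intro h6
      have := congrArg (fun p : ℤ[X] => p.coeff 0) h6
      simp at this
    exact mul_left_cancel₀ h5 h4
  have hb : reflect d (reflect d h - a) = X * (reflect d h - a) := by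
    rw [Polynomial.reflect_sub, Polynomial.reflect_reflect, h2]
    calc h - a = (a + X * (reflect d h - a)) - a := by rw [← h1]
      _ = X * (reflect d h - a) := by ring
  refine ⟨⟨ha, ?_⟩, ⟨?_, ?_⟩, h1⟩
  · intro i hi
    conv_lhs => rw [← h2]
    rw [Polynomial.coeff_reflect, Polynomial.revAt_le hi]
  · rw [Polynomial.natDegree_le_iff_coeff_eq_zero]
    intro N hN
    by_cases hNd : N = d
    · have h3 := congrArg (fun p : ℤ[X] => p.coeff 0) hb
      simp only [Polynomial.coeff_reflect, Polynomial.revAt_le (Nat.zero_le d), Nat.sub_zero,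
        Polynomial.mul_coeff_zero, Polynomial.coeff_X_zero, zero_mul] at h3
      rw [hNd]; exact h3
    · apply Polynomial.coeff_eq_zero_of_natDegree_lt
      refine lt_of_le_of_lt (Polynomial.natDegree_sub_le _ _) ?_
      have := natDegree_reflect_le hh
      rw [max_lt_iff]
      omega
  · intro i hi
    have h3 := congrArg (fun p : ℤ[X] => p.coeff (i + 1)) hb
    simp only [Polynomial.coeff_reflect, Polynomial.revAt_le (show i + 1 ≤ d by omega),
      Polynomial.coeff_X_mul] at h3
    rw [← h3]
    congr 1
    omega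

/-- **Answer to MP_9dade1_co (proved).**  For every finite simple graph `G` on `d ≥ 1` vertices
there are unique polynomials `h = h_G`, `a`, `b` with `h = a + z b`, `a` `d`-symmetric and `b`
`(d-1)`-symmetric, and for these all coefficients of `a` are `≤ 0` and all coefficients of `b` are
`≥ 0`. -/
theorem result (V : Type) [Fintype V] (hV : 1 ≤ Fintype.card V) (G : SimpleGraph V) :
    (∃ h a b : ℤ[X], IsNumerator G h ∧ IsSym (Fintype.card V) a ∧
      IsSym (Fintype.card V - 1) b ∧ h = a + X * b) ∧
    ∀ h a b : ℤ[X], IsNumerator G h → IsSym (Fintype.card V) a →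
      IsSym (Fintype.card V - 1) b → h = a + X * b →
      (∀ i, a.coeff i ≤ 0) ∧ ∀ i, 0 ≤ b.coeff i := by
  classical
  obtain ⟨m, hm⟩ : ∃ m, Fintype.card V = m + 1 := ⟨Fintype.card V - 1, by omega⟩
  let E : List (V × V) := (Finset.univ.filter (fun p : V × V => G.Adj p.1 p.2)).toList
  have hE : ∀ n, cnt E n = numCol G n := by
    intro n
    apply Nat.card_congr
    apply Equiv.subtypeEquivRight
    intro f
    constructor
    · intro h u v huv
      exact h (u, v) (by simp [E, huv])
    · intro h p hp
      exact h p.1 p.2 (by simpa [E] using hp)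
  obtain ⟨h, a, hd, hn, hp, he, hda, hna⟩ := main E.length V m hm E rfl
  rw [← hm] at hd hp he hda
  have hnum : IsNumerator G h := by
    unfold IsNumerator
    rw [hp]
    congr 2
    funext n
    rw [hE]
  obtain ⟨h1, h2, h3⟩ := decomp_of_eq hV hd hda he
  refine ⟨⟨h, a, reflect (Fintype.card V) h - a, hnum, h1, h2, h3⟩, ?_⟩
  intro h' a' b' hnum' ha' hb' hab'
  have hh : h' = h := by
    apply Polynomial.coe_injective
    rw [hnum', hnum]
  subst hh
  have he' := decomp_eq hV ha' hb' hab'
  have h5 : (1 - X : ℤ[X]) ≠ 0 := by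
    intro h6
    have := congrArg (fun p : ℤ[X] => p.coeff 0) h6
    simp at this
  have haa : a' = a := mul_left_cancel₀ h5 (he'.trans he.symm)
  subst haa
  have hbb : b' = reflect (Fintype.card V) h' - a' := by
    have h6 : X * b' = X * (reflect (Fintype.card V) h' - a') := by
      have h7 : a' + X * b' = a' + X * (reflect (Fintype.card V) h' - a') := by
        rw [← hab', ← h3]
      exact add_left_cancel h7
    exact mul_left_cancel₀ Polynomial.X_ne_zero h6
  refine ⟨hna, ?_⟩
  intro i
  rw [hbb, Polynomial.coeff_sub]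
  have h6 := coeff_reflect_nonneg (d := Fintype.card V) hn i
  have h7 := hna i
  linarith

end Pool.Agent.Results.MP_9dade1_co.SymDecomp
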